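import Pool.Agent.Q5.SG.Stm
import Pool.Agent.Y419.LC.LCP

/-!
# Project SG (helper5), job DE: descent of a relation between logarithms for a place-closed set
-/

set_option autoImplicit false
set_option linter.unusedSectionVars false

namespace Pool.Agent.Q65.SG

open NumberField Module Filter Topology Pool.Agent.Q5.SG Pool.Agent.Y419.LC.LcpP
  Pool.Agent.W289.SL

variable {p : ℕ} [hp : Fact p.Prime]

/-- the image of `ℚ_p` in `ℂ_p` is closed -/
lemma isClosed_range : IsClosed (Set.range (algebraMap ℚ_[p] ℂ_[p])) := by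
  have h : Isometry (algebraMap ℚ_[p] ℂ_[p]) := algebraMap_isometry ℚ_[p] ℂ_[p]
  exact h.isClosedEmbedding.isClosed_range

variable {E : Type} [Field E] [NumberField E]

open scoped Classical in
/-- the projector belonging to a place-closed set of embeddings -/
lemma exists_proj (hCR : S_CR) (S : Set (E →+* ℂ_[p])) (hS : PlaceClosed S) :
    ∃ P : J E → J E → ℚ_[p],
      (∀ j, ∀ σ ∈ S, σ ((om E j : 𝓞 E) : E) =
        ∑ l, algebraMap ℚ_[p] ℂ_[p] (P l j) * σ ((om E l : 𝓞 E) : E)) ∧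
      ∀ t : J E → ℂ_[p], (∀ σ ∈ S, ∑ j, t j * σ ((om E j : 𝓞 E) : E) = 0) →
        ∀ l, ∑ j, t j * algebraMap ℚ_[p] ℂ_[p] (P l j) = 0 := by
  obtain ⟨N, hN⟩ := exists_inv (p := p) (E := E)
  have hex := fun k : ℕ => hCR p E S hS k 1 0
  choose e he1 he0 using hex
  have hq : Tendsto (fun k : ℕ => ((p : ℝ)⁻¹) ^ k) atTop (𝓝 0) :=
    tendsto_pow_atTop_nhds_zero_of_lt_one (by positivity)
      (inv_lt_one_of_one_lt₀ (by exact_mod_cast hp.out.one_lt))
  have hlim : ∀ σ : E →+* ℂ_[p], Tendsto (fun k => σ ((e k : 𝓞 E) : E)) atTop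
      (𝓝 (if σ ∈ S then 1 else 0)) := by
    intro σ
    rw [tendsto_iff_norm_sub_tendsto_zero]
    refine squeeze_zero (fun _ => norm_nonneg _) (fun k => ?_) hq
    split_ifs with h
    · have h1 := he1 k σ h
      have h2 : σ (((e k : 𝓞 E) : E) - ((1 : 𝓞 E) : E)) = σ ((e k : 𝓞 E) : E) - 1 := by
        have h3 : ((1 : 𝓞 E) : E) = 1 := rfl
        rw [map_sub, h3, map_one]
      rwa [h2] at h1
    · have h1 := he0 k σ h
      have h2 : σ (((e k : 𝓞 E) : E) - ((0 : 𝓞 E) : E)) = σ ((e k : 𝓞 E) : E) - 0 := by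
        have h3 : ((0 : 𝓞 E) : E) = 0 := rfl
        rw [map_sub, h3, map_zero]
      rwa [h2] at h1
  -- the coordinates of `e_k ω_j`
  have hco : ∀ (k : ℕ) (l j : J E), (((om E).repr (e k * om E j) l : ℤ) : ℂ_[p]) =
      ∑ σ : E →+* ℂ_[p], (σ ((e k : 𝓞 E) : E) * σ ((om E j : 𝓞 E) : E)) * N σ l := by
    intro k l j
    rw [hN (fun l => (((om E).repr (e k * om E j) l : ℤ) : ℂ_[p])) l]
    refine Finset.sum_congr rfl fun σ _ => ?_
    rw [← emb_coord σ (e k * om E j)]
    congr 1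
    rw [← map_mul]
    rfl
  have hten : ∀ l j : J E, Tendsto (fun k => (((om E).repr (e k * om E j) l : ℤ) : ℂ_[p])) atTop
      (𝓝 (∑ σ : E →+* ℂ_[p], ((if σ ∈ S then 1 else 0) * σ ((om E j : 𝓞 E) : E)) * N σ l)) := by
    intro l j
    simp only [hco]
    exact tendsto_finsetSum _ fun σ _ => ((hlim σ).mul_const _).mul_const _
  have hP : ∀ l j : J E, ∃ x : ℚ_[p], algebraMap ℚ_[p] ℂ_[p] x =
      ∑ σ : E →+* ℂ_[p], ((if σ ∈ S then 1 else 0) * σ ((om E j : 𝓞 E) : E)) * N σ l := by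
    intro l j
    refine (isClosed_range (p := p)).mem_of_tendsto (hten l j) ?_
    refine Filter.Eventually.of_forall fun k => ?_
    exact ⟨(((om E).repr (e k * om E j) l : ℤ) : ℚ_[p]), by rw [map_intCast]⟩
  choose P hP using hP
  refine ⟨P, ?_, ?_⟩
  · intro j σ hσ
    have h1 : Tendsto (fun k => ∑ l, (((om E).repr (e k * om E j) l : ℤ) : ℂ_[p]) *
        σ ((om E l : 𝓞 E) : E)) atTop
        (𝓝 (∑ l, algebraMap ℚ_[p] ℂ_[p] (P l j) * σ ((om E l : 𝓞 E) : E))) := by
      refine tendsto_finsetSum _ fun l _ => ?_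
      rw [hP l j]
      exact (hten l j).mul_const _
    have h2 : Tendsto (fun k => ∑ l, (((om E).repr (e k * om E j) l : ℤ) : ℂ_[p]) *
        σ ((om E l : 𝓞 E) : E)) atTop (𝓝 (1 * σ ((om E j : 𝓞 E) : E))) := by
      have h3 : ∀ k, ∑ l, (((om E).repr (e k * om E j) l : ℤ) : ℂ_[p]) *
          σ ((om E l : 𝓞 E) : E) = σ ((e k : 𝓞 E) : E) * σ ((om E j : 𝓞 E) : E) := by
        intro k
        rw [← emb_coord σ (e k * om E j), ← map_mul]
        rfl
      simp only [h3]
      have h4 := hlim σ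
      rw [if_pos hσ] at h4
      exact h4.mul_const _
    have h5 := tendsto_nhds_unique h2 h1
    rwa [one_mul] at h5
  · intro t ht l
    have h1 : ∑ j, t j * algebraMap ℚ_[p] ℂ_[p] (P l j) =
        ∑ σ : E →+* ℂ_[p], ((if σ ∈ S then 1 else 0) *
          ∑ j, t j * σ ((om E j : 𝓞 E) : E)) * N σ l := by
      simp only [hP, Finset.mul_sum, Finset.sum_mul]
      rw [Finset.sum_comm]
      refine Finset.sum_congr rfl fun σ _ => Finset.sum_congr rfl fun j _ => ?_
      ring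
    rw [h1]
    refine Finset.sum_eq_zero fun σ _ => ?_
    split_ifs with h
    · rw [ht σ h, mul_zero, zero_mul]
    · rw [zero_mul, zero_mul]

theorem de : Pool.Agent.Q5.SG.J_DE := by
  intro hCR p hp E _ _ S hS L hL r ε hε a ha hrel
  choose y hy using hε
  have hy' : ∀ i, (ε i : 𝓞 E) = 1 + ((p : ℕ) : 𝓞 E) ^ 4 * y i := by
    intro i
    rw [← hy i]
    ring
  have hc := fun i => exists_c hL (ε i : 𝓞 E) (y i) (hy' i)
  choose c hc using hc
  obtain ⟨P, hP1, hP2⟩ := exists_proj hCR S hS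
  -- the relations between the coordinates
  have h1 : ∀ l, ∑ i, a i * algebraMap ℚ_[p] ℂ_[p] (∑ j, P l j * c i j) = 0 := by
    intro l
    have h2 := hP2 (fun j => ∑ i, a i * algebraMap ℚ_[p] ℂ_[p] (c i j)) ?_ l
    · rw [← h2]
      simp only [map_sum, map_mul, Finset.mul_sum, Finset.sum_mul]
      rw [Finset.sum_comm]
      refine Finset.sum_congr rfl fun j _ => Finset.sum_congr rfl fun i _ => ?_
      ring
    · intro σ hσ
      rw [← hrel σ hσ]
      simp only [Finset.sum_mul]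
      rw [Finset.sum_comm]
      refine Finset.sum_congr rfl fun i _ => ?_
      rw [hc i σ, Finset.mul_sum]
      refine Finset.sum_congr rfl fun j _ => ?_
      rw [mul_assoc]
  -- a functional
  obtain ⟨i0, hi0⟩ : ∃ i0, a i0 ≠ 0 := by
    by_contra h
    push Not at h
    exact ha (funext h)
  obtain ⟨f, hf⟩ : ∃ f : Module.Dual ℚ_[p] ℂ_[p], f (a i0) ≠ 0 := by
    by_contra h
    push Not at h
    exact hi0 ((Module.forall_dual_apply_eq_zero_iff ℚ_[p] (a i0)).1 h)
  have h4 : ∀ l, ∑ i, f (a i) * ∑ j, P l j * c i j = 0 := by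
    intro l
    have h5 := congrArg f (h1 l)
    rw [map_sum, map_zero] at h5
    rw [← h5]
    refine Finset.sum_congr rfl fun i _ => ?_
    rw [mul_comm (a i), ← Algebra.smul_def, map_smul, smul_eq_mul, mul_comm]
  -- scaling
  have hne : Nonempty (Fin r) := ⟨i0⟩
  obtain ⟨i1, hi1⟩ := Finite.exists_max (fun i => ‖f (a i)‖)
  have hfi1 : f (a i1) ≠ 0 := by
    intro h0
    have h5 := hi1 i0
    rw [h0, norm_zero] at h5
    exact hf (norm_le_zero_iff.1 h5)
  have hle : ∀ i, ‖f (a i) / f (a i1)‖ ≤ 1 := by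
    intro i
    rw [norm_div, div_le_one (norm_pos_iff.2 hfi1)]
    exact hi1 i
  refine ⟨fun i => ⟨f (a i) / f (a i1), hle i⟩, ⟨i1, ?_⟩, ?_⟩
  · apply Subtype.ext
    change f (a i1) / f (a i1) = 1
    exact div_self hfi1
  · intro σ hσ
    change ∑ i, algebraMap ℚ_[p] ℂ_[p] (f (a i) / f (a i1)) * L (σ ((ε i : 𝓞 E) : E)) = 0
    have h6 : ∀ i, algebraMap ℚ_[p] ℂ_[p] (f (a i) / f (a i1)) * L (σ ((ε i : 𝓞 E) : E)) =
        ∑ l, algebraMap ℚ_[p] ℂ_[p] ((f (a i) * ∑ j, P l j * c i j) / f (a i1)) *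
          σ ((om E l : 𝓞 E) : E) := by
      intro i
      rw [hc i σ]
      have h7 : ∑ j, algebraMap ℚ_[p] ℂ_[p] (c i j) * σ ((om E j : 𝓞 E) : E) =
          ∑ l, algebraMap ℚ_[p] ℂ_[p] (∑ j, P l j * c i j) * σ ((om E l : 𝓞 E) : E) := by
        simp only [map_sum, map_mul, Finset.sum_mul]
        rw [Finset.sum_comm]
        refine Finset.sum_congr rfl fun j _ => ?_
        rw [hP1 j σ hσ, Finset.mul_sum]
        refine Finset.sum_congr rfl fun l _ => ?_
        ring
      rw [h7, Finset.mul_sum]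
      refine Finset.sum_congr rfl fun l _ => ?_
      rw [← mul_assoc, ← map_mul]
      congr 2
      ring
    rw [Finset.sum_congr rfl fun i _ => h6 i, Finset.sum_comm]
    refine Finset.sum_eq_zero fun l _ => ?_
    rw [← Finset.sum_mul, ← map_sum, ← Finset.sum_div, h4 l, zero_div, map_zero, zero_mul]

end Pool.Agent.Q65.SG
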