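import Pool.Agent.Q5.SG.Stm2
import Pool.Agent.Q125.AR.Base

/-!
# Project SG (helper5), job TG: the target prime
-/

set_option autoImplicit false
set_option linter.unusedSectionVars false

namespace Pool.Agent.Q65.SG

open NumberField IsDedekindDomain Polynomial Pool.Agent.Q5.SG Pool.Agent.Q92.AR Pool.Agent.Q125.AR
  Pool.Agent.Y18.LC

/-! ### Duality -/

theorem finite_hom (G : Type) [Group G] [Finite G] : Finite (G →* ℂˣ) := by
  have hN : NeZero (Nat.card G) := ⟨Nat.card_pos.ne'⟩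
  let S := rootsOfUnity (Nat.card G) ℂ
  have hfin : Finite (G → S) := inferInstance
  refine Finite.of_injective (fun (f : G →* ℂˣ) (g : G) => (⟨f g, by
    rw [mem_rootsOfUnity, ← map_pow, pow_card_eq_one', map_one]⟩ : S)) ?_
  intro f f' h
  ext g
  have h1 := congrArg Subtype.val (congrFun h g)
  exact congrArg Units.val h1

theorem neZero_exp (G : Type) [Group G] [Finite G] : NeZero (Monoid.exponent G) :=
  ⟨Monoid.exponent_ne_zero_of_finite⟩

theorem dual {G : Type} [Group G] [Finite G] (H : Subgroup G) (e : (G →* ℂˣ) →* ℂˣ)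
    (he : ∀ ψ : G →* ℂˣ, (∀ g ∈ H, ψ g = 1) → e ψ = 1) : ∃ a ∈ H, ∀ ψ : G →* ℂˣ, ψ a = e ψ := by
  have hf1 : Finite (G →* ℂˣ) := finite_hom G
  have hf2 : Finite ((G →* ℂˣ) →* ℂˣ) := finite_hom _
  have hz1 : NeZero (Monoid.exponent (G →* ℂˣ)) := neZero_exp _
  have hz2 : NeZero (Monoid.exponent ((G →* ℂˣ) →* ℂˣ)) := neZero_exp _
  have h1 : e ∈ H.map (MonoidHom.eval : G →* (G →* ℂˣ) →* ℂˣ) := by
    rw [← CommGroup.forall_monoidHom_apply_eq_one_iff (M := ℂ)]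
    intro φ hφ
    set ψ := CommGroup.monoidHomMonoidHomEquiv (G →* ℂˣ) ℂ φ with hψ
    have h2 : ∀ η : (G →* ℂˣ) →* ℂˣ, η ψ = φ η := fun η =>
      CommGroup.apply_monoidHomMonoidHomEquiv (M := ℂ) η φ
    rw [← h2]
    apply he
    intro g hg
    have h3 := hφ (MonoidHom.eval g) (Subgroup.mem_map_of_mem _ hg)
    rw [← h2] at h3
    exact h3
  obtain ⟨a, ha, hae⟩ := Subgroup.mem_map.1 h1
  exact ⟨a, ha, fun ψ => by rw [← hae]; rfl⟩

/-! ### Automorphisms, rays and divisors -/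

section
variable {K : Type} [Field K] [NumberField K]

theorem natCast_mem_actE (c : K ≃+* K) (v : HeightOneSpectrum (𝓞 K)) (N : ℕ) :
    (N : 𝓞 K) ∈ (Pool.Agent.TeamU.actE c v).asIdeal ↔ (N : 𝓞 K) ∈ v.asIdeal := by
  rw [Pool.Agent.TeamU.mem_actE, map_natCast]

theorem val_c (c : K ≃+* K) (v : HeightOneSpectrum (𝓞 K)) (x : K) :
    v.valuation K (c x) = (Pool.Agent.TeamU.actE c.symm v).valuation K x := by
  have h := Pool.Agent.TeamU.valuation_actE c.symm v (c x)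
  rw [c.symm_apply_apply] at h
  exact h.symm

theorem ray_mul {N : ℕ} {x y : Kˣ} (hx : x ∈ Ray K N) (hy : y ∈ Ray K N) : x * y ∈ Ray K N := by
  refine ⟨fun v hv => ?_, fun φ => ?_⟩
  · have h1 : ((x * y : Kˣ) : K) - 1 = (x : K) * ((y : K) - 1) + ((x : K) - 1) := by
      rw [Units.val_mul]; ring
    rw [h1]
    refine (Valuation.map_add _ _ _).trans (max_le ?_ (hx.1 v hv))
    rw [map_mul, val_eq_one hv (hx.1 v hv), one_mul]
    exact hy.1 v hv
  · rw [Units.val_mul, map_mul]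
    exact mul_pos (hx.2 φ) (hy.2 φ)

theorem ray_inv {N : ℕ} {x : Kˣ} (hx : x ∈ Ray K N) : x⁻¹ ∈ Ray K N := by
  refine ⟨fun v hv => ?_, fun φ => ?_⟩
  · have h1 : ((x⁻¹ : Kˣ) : K) - 1 = - ((x : K)⁻¹ * ((x : K) - 1)) := by
      rw [Units.val_inv_eq_inv_val, mul_sub, inv_mul_cancel₀ x.ne_zero]; ring
    rw [h1, Valuation.map_neg, map_mul, map_inv₀, val_eq_one hv (hx.1 v hv), inv_one, one_mul]
    exact hx.1 v hv
  · rw [Units.val_inv_eq_inv_val, map_inv₀]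
    exact inv_pos.2 (hx.2 φ)

theorem ray_c (c : K ≃+* K) {N : ℕ} {x : Kˣ} (hx : x ∈ Ray K N) :
    Units.map (c : K →* K) x ∈ Ray K N := by
  refine ⟨fun v hv => ?_, fun φ => ?_⟩
  · have h1 : ((Units.map (c : K →* K) x : Kˣ) : K) - 1 = c ((x : K) - 1) := by
      rw [map_sub, map_one]; rfl
    have h2 : (N : K) = c (N : K) := (map_natCast c N).symm
    rw [h1, h2, val_c, val_c]
    exact hx.1 _ ((natCast_mem_actE c.symm v N).2 hv)
  · exact hx.2 (φ.comp (c : K →+* K))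

theorem prin_c (c : K ≃+* K) {N : ℕ} {x : Kˣ} (hx : prin x ∈ Pr K N) :
    prin (Units.map (c : K →* K) x) ∈ Pr K N := by
  intro v hv
  apply prin_eq_zero_of_valuation
  have h1 : ((Units.map (c : K →* K) x : Kˣ) : K) = c (x : K) := rfl
  rw [h1, val_c, valuation_eq_exp, hx _ ((natCast_mem_actE c.symm v N).2 hv), neg_zero,
    WithZero.exp_zero]

end

/-! ### The Artin map -/

section
variable {F E : Type} [Field F] [NumberField F] [Field E] [NumberField E] [Algebra F E]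

theorem art_mul (ψ ψ' : (E ≃ₐ[F] E) →* ℂˣ) (D : Dv F) : art (ψ * ψ') D = art ψ D + art ψ' D := by
  rw [art_eq_sum, art_eq_sum, art_eq_sum, ← Finset.sum_add_distrib]
  refine Finset.sum_congr rfl fun v _ => ?_
  rw [MonoidHom.mul_apply, ofMul_mul, zsmul_add]

theorem art_one (D : Dv F) : art (1 : (E ≃ₐ[F] E) →* ℂˣ) D = 0 := by
  rw [art_eq_sum]
  refine Finset.sum_eq_zero fun v _ => ?_
  rw [MonoidHom.one_apply, ofMul_one, smul_zero]

/-- evaluation of the Artin characters at a divisor -/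
noncomputable def artEv (E : Type) [Field E] [NumberField E] [Algebra F E] (D : Dv F) :
    ((E ≃ₐ[F] E) →* ℂˣ) →* ℂˣ where
  toFun ψ := (art ψ D).toMul
  map_one' := by rw [art_one]; rfl
  map_mul' ψ ψ' := by rw [art_mul]; rfl

end

/-! ### Residue fields -/

section
variable {K M : Type} [Field K] [NumberField K] [Field M] [NumberField M] [Algebra K M]

theorem mk_pow {𝔮 : HeightOneSpectrum (𝓞 K)} {a : M ≃ₐ[K] M} {w : Ideal (𝓞 M)}
    (hw : ∀ x : 𝓞 M, ∃ y ∈ w, (y : M) = a x - (x : M) ^ Ideal.absNorm 𝔮.asIdeal)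
    {t : 𝓞 M} (ht : a (t : M) = (t : M)) :
    (Ideal.Quotient.mk w t) ^ Ideal.absNorm 𝔮.asIdeal = Ideal.Quotient.mk w t := by
  obtain ⟨y, hy, hyt⟩ := hw t
  have h1 : y = t - t ^ Ideal.absNorm 𝔮.asIdeal := by
    apply RingOfIntegers.ext
    rw [hyt, ht]
    rfl
  rw [h1] at hy
  have h2 := Ideal.Quotient.eq_zero_iff_mem.2 hy
  rw [map_sub, map_pow, sub_eq_zero] at h2
  exact h2.symm

theorem resid1 {𝔮 : HeightOneSpectrum (𝓞 K)} (hq : (Ideal.absNorm 𝔮.asIdeal).Prime)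
    {a : M ≃ₐ[K] M} {w : Ideal (𝓞 M)} (hwm : w.IsMaximal)
    (hwv : w.comap (algebraMap (𝓞 K) (𝓞 M)) = 𝔮.asIdeal)
    (hw : ∀ x : 𝓞 M, ∃ y ∈ w, (y : M) = a x - (x : M) ^ Ideal.absNorm 𝔮.asIdeal)
    {p : ℕ} (hp : (p : 𝓞 K) ∉ 𝔮.asIdeal) (hp0 : 0 < p) {m : ℕ} {ζ : M}
    (hζ : IsPrimitiveRoot ζ (p ^ m)) (ha : a ζ = ζ) : p ^ m ∣ Ideal.absNorm 𝔮.asIdeal - 1 := by
  have hpos : 0 < p ^ m := pow_pos hp0 m
  let _ : Field (𝓞 M ⧸ w) := Ideal.Quotient.field w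
  let z : 𝓞 M := ⟨ζ, hζ.isIntegral hpos⟩
  have hz : IsPrimitiveRoot z (p ^ m) := by
    refine IsPrimitiveRoot.of_map_of_injective (f := algebraMap (𝓞 M) M) ?_
      RingOfIntegers.coe_injective
    exact hζ
  have hne : ((p ^ m : ℕ) : 𝓞 M ⧸ w) ≠ 0 := by
    rw [Nat.cast_pow]
    apply pow_ne_zero
    intro h
    apply hp
    rw [← hwv, Ideal.mem_comap, map_natCast, ← Ideal.Quotient.eq_zero_iff_mem, map_natCast]
    exact h
  have hNZ : NeZero ((p ^ m : ℕ) : 𝓞 M ⧸ w) := ⟨hne⟩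
  have hroot : IsPrimitiveRoot (Ideal.Quotient.mk w z) (p ^ m) := by
    rw [← Polynomial.isRoot_cyclotomic_iff, ← Polynomial.map_cyclotomic _ (Ideal.Quotient.mk w)]
    exact (hz.isRoot_cyclotomic hpos).map
  apply hroot.dvd_of_pow_eq_one
  have h1 := mk_pow hw (t := z) ha
  have h2 : Ideal.Quotient.mk w z ≠ 0 := hroot.ne_zero hpos.ne'
  apply mul_right_cancel₀ h2
  rw [← pow_succ, one_mul, Nat.sub_add_cancel hq.one_lt.le, h1]

theorem resid2 {𝔮 : HeightOneSpectrum (𝓞 K)} (hq : (Ideal.absNorm 𝔮.asIdeal).Prime)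
    {a : M ≃ₐ[K] M} {w : Ideal (𝓞 M)} (hwm : w.IsMaximal)
    (hwv : w.comap (algebraMap (𝓞 K) (𝓞 M)) = 𝔮.asIdeal)
    (hw : ∀ x : 𝓞 M, ∃ y ∈ w, (y : M) = a x - (x : M) ^ Ideal.absNorm 𝔮.asIdeal)
    {t : 𝓞 M} (ht : a (t : M) = (t : M)) : ∃ y : 𝓞 K, t - algebraMap (𝓞 K) (𝓞 M) y ∈ w := by
  classical
  let _ : Field (𝓞 M ⧸ w) := Ideal.Quotient.field w
  let f : 𝓞 K ⧸ 𝔮.asIdeal →+* 𝓞 M ⧸ w :=
    Ideal.quotientMap w (algebraMap (𝓞 K) (𝓞 M)) hwv.ge
  have hf : Function.Injective f := Ideal.quotientMap_injective' hwv.le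
  have hcard : Nat.card (𝓞 K ⧸ 𝔮.asIdeal) = Ideal.absNorm 𝔮.asIdeal := by
    rw [Ideal.absNorm_apply, Submodule.cardQuot_apply]
  have hfin : Finite (𝓞 K ⧸ 𝔮.asIdeal) := by
    apply Nat.finite_of_card_ne_zero
    rw [hcard]
    exact hq.ne_zero
  let _ : Fintype (𝓞 K ⧸ 𝔮.asIdeal) := Fintype.ofFinite _
  set q := Ideal.absNorm 𝔮.asIdeal with hqd
  set P : (𝓞 M ⧸ w)[X] := X ^ q - X with hP
  have hP0 : P ≠ 0 := FiniteField.X_pow_card_sub_X_ne_zero _ hq.one_lt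
  have hdeg : P.natDegree = q := FiniteField.X_pow_card_sub_X_natDegree_eq _ hq.one_lt
  have hr : ∀ s : 𝓞 M, a (s : M) = (s : M) → Ideal.Quotient.mk w s ∈ P.roots.toFinset := by
    intro s hs
    rw [Multiset.mem_toFinset, mem_roots hP0, IsRoot.def, hP, eval_sub, eval_pow, eval_X,
      mk_pow hw hs, sub_self]
  have hmem : Ideal.Quotient.mk w t ∈ Finset.univ.image f := by
    by_contra hcon
    have h1 : insert (Ideal.Quotient.mk w t) (Finset.univ.image f) ⊆ P.roots.toFinset := by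
      intro x hx
      rw [Finset.mem_insert, Finset.mem_image] at hx
      rcases hx with rfl | ⟨y, -, rfl⟩
      · exact hr t ht
      · obtain ⟨y, rfl⟩ := Ideal.Quotient.mk_surjective y
        have h2 : f (Ideal.Quotient.mk 𝔮.asIdeal y) =
            Ideal.Quotient.mk w (algebraMap (𝓞 K) (𝓞 M) y) := Ideal.quotientMap_mk
        rw [h2]
        apply hr
        exact a.commutes (y : K)
    have h2 := Finset.card_le_card h1
    rw [Finset.card_insert_of_notMem hcon, Finset.card_image_of_injective _ hf, Finset.card_univ,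
      Fintype.card_eq_nat_card, hcard] at h2
    have h3 := (Multiset.toFinset_card_le P.roots).trans (card_roots' P)
    rw [hdeg] at h3
    omega
  rw [Finset.mem_image] at hmem
  obtain ⟨y, -, hy⟩ := hmem
  obtain ⟨y, rfl⟩ := Ideal.Quotient.mk_surjective y
  have h2 : f (Ideal.Quotient.mk 𝔮.asIdeal y) =
      Ideal.Quotient.mk w (algebraMap (𝓞 K) (𝓞 M) y) := Ideal.quotientMap_mk
  rw [h2] at hy
  refine ⟨y, ?_⟩
  rw [← Ideal.Quotient.eq_zero_iff_mem, map_sub, hy, sub_self]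

end

theorem tg : Pool.Agent.Q5.SG.J_TG := by
  intro hCB hXF hKP hKU hSW hCH hCC p hp hp2 K _ _ _ hU c γ hγ k m hk B hB
  have hpp : p.Prime := hp.out
  obtain ⟨K', _, _, _, ζ, r, hζ, hr⟩ := hKP K (p ^ m) (pow_pos hpp.pos m)
  obtain ⟨M, _, _, _, _, _, _, N', hN', hNN, hRam, hχ⟩ := hXF K K' (p ^ k)
    (pow_ne_zero k hpp.ne_zero)
  have hζ' : IsPrimitiveRoot (algebraMap K' M ζ) (p ^ m) :=
    hζ.map_of_injective (algebraMap K' M).injective
  have hr' : ∀ u : (𝓞 K)ˣ, (algebraMap K' M (r u)) ^ p ^ m = algebraMap K M ((u : 𝓞 K) : K) := by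
    intro u
    rw [← map_pow, hr u, ← IsScalarTower.algebraMap_apply]
  have hpN' : p ∣ N' := (dvd_pow_self p (by omega)).trans hNN
  obtain ⟨x₀, hx₀, hx₀'⟩ := hSW K (p ^ k) N' hN' hNN γ (by
    intro v hv
    apply hγ v
    rw [Nat.cast_pow] at hv
    exact v.isPrime.mem_of_pow_mem k hv)
  set D' : Dv K := prin (γ * x₀) - prin (Units.map (c : K →* K) (γ * x₀)) with hD'
  have hD'mem : D' ∈ Pr K N' := (Pr K N').sub_mem hx₀' (prin_c c hx₀')
  let G' : Subgroup (M ≃ₐ[K] M) :=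
    { carrier := {g | g (algebraMap K' M ζ) = algebraMap K' M ζ ∧
        ∀ u, g (algebraMap K' M (r u)) = algebraMap K' M (r u)}
      mul_mem' := fun {a b} ha hb => ⟨by rw [AlgEquiv.mul_apply, hb.1, ha.1],
        fun u => by rw [AlgEquiv.mul_apply, hb.2 u, ha.2 u]⟩
      one_mem' := ⟨rfl, fun u => rfl⟩
      inv_mem' := fun {a} ha => by
        have h : ∀ x, a x = x → a⁻¹ x = x := by
          intro x hx
          have h1 := congrArg (fun y => a⁻¹ y) hx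
          rw [← AlgEquiv.mul_apply, inv_mul_cancel, AlgEquiv.one_apply] at h1
          exact h1.symm
        exact ⟨h _ ha.1, fun u => h _ (ha.2 u)⟩ }
  have hfd : FiniteDimensional K M := Module.Finite.of_restrictScalars_finite ℚ K M
  obtain ⟨a, haG, ha⟩ := dual G' (artEv M D') (by
    intro ψ hψ
    have h1 := hKU p hp2 K M hU m (algebraMap K' M ζ) (fun u => algebraMap K' M (r u)) hζ' hr' ψ
      (fun g h1 h2 => hψ g ⟨h1, h2⟩)
    have h2 := hCC p K M m (algebraMap K' M ζ) hζ' ψ h1 N' hN' hpN' hRam c (γ * x₀) hx₀'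
    change (art ψ D').toMul = 1
    rw [hD', map_sub, h2, sub_self]
    rfl)
  obtain ⟨𝔮, h𝔮B, hq, hunr, hfr⟩ := hCB K M a (B ∪ {v | (N' : 𝓞 K) ∈ v.asIdeal})
    (hB.union (finite_dvd hN'))
  have hqB : 𝔮 ∉ B := fun h => h𝔮B (Or.inl h)
  have hqN' : (N' : 𝓞 K) ∉ 𝔮.asIdeal := fun h => h𝔮B (Or.inr h)
  have hqp : (p : 𝓞 K) ∉ 𝔮.asIdeal := by
    intro h
    apply hqN'
    obtain ⟨t, ht⟩ := hpN'
    rw [ht, Nat.cast_mul]
    exact 𝔮.asIdeal.mul_mem_right _ h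
  have hsing : (Finsupp.single 𝔮 1 : Dv K) ∈ Pr K N' := by
    classical
    intro v hv
    rw [Finsupp.single_apply, if_neg]
    rintro rfl
    exact hqN' hv
  have hPr : ∀ D ∈ Pr K N', D ∈ Pr K (p ^ k) := by
    intro D hD v hv
    apply hD v
    obtain ⟨t, ht⟩ := hNN
    rw [ht, Nat.cast_mul]
    exact v.asIdeal.mul_mem_right _ hv
  -- the class of `𝔮`
  obtain ⟨x, hx, hxD⟩ := hCH K (p ^ k) (pow_ne_zero k hpp.ne_zero) (Finsupp.single 𝔮 1 - D')
    ((Pr K (p ^ k)).sub_mem (hPr _ hsing) (hPr _ hD'mem)) (by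
      intro χ hχR
      obtain ⟨ψ, hψ⟩ := hχ χ hχR
      rw [map_sub, ← hψ _ hsing, ← hψ _ hD'mem, art_single, one_smul]
      have h1 : ψ (frob M 𝔮) = ψ a := chi_frob hunr (frob_spec 𝔮) hfr ψ
      have h2 : ψ a = (art ψ D').toMul := ha ψ
      rw [h1, h2, ofMul_toMul, sub_self])
  obtain ⟨w, hwm, hwv, hw⟩ := hfr
  refine ⟨𝔮, hqB, x * x₀ * (Units.map (c : K →* K) x₀)⁻¹, hq,
    resid1 hq hwm hwv hw hqp hpp.pos hζ' haG.1, ?_, ?_, ?_⟩
  · intro u
    have hint : IsIntegral ℤ (algebraMap K' M (r u)) := by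
      refine IsIntegral.of_pow (pow_pos hpp.pos m) ?_
      rw [hr' u]
      exact map_isIntegral_int (algebraMap K M) (RingOfIntegers.isIntegral_coe (u : 𝓞 K))
    obtain ⟨y, hy⟩ := resid2 hq hwm hwv hw (t := ⟨algebraMap K' M (r u), hint⟩) (haG.2 u)
    refine ⟨y, ?_⟩
    rw [← hwv, Ideal.mem_comap, map_sub, map_pow]
    have h1 : algebraMap (𝓞 K) (𝓞 M) (u : 𝓞 K) =
        (⟨algebraMap K' M (r u), hint⟩ : 𝓞 M) ^ p ^ m := by
      apply RingOfIntegers.ext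
      exact (hr' u).symm
    rw [h1]
    exact Ideal.mem_of_dvd _ (sub_dvd_pow_sub_pow _ _ _) hy
  · exact (ray_mul (ray_mul hx hx₀) (ray_inv (ray_c c hx₀))).1
  · have h1 : γ * (Units.map (c : K →* K) γ)⁻¹ * (x * x₀ * (Units.map (c : K →* K) x₀)⁻¹) =
        (γ * x₀) * (Units.map (c : K →* K) (γ * x₀))⁻¹ * x := by
      rw [map_mul, mul_inv]
      ac_rfl
    rw [h1, prin_mul, prin_mul, prin_inv, hxD, hD']
    abel

end Pool.Agent.Q65.SG
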