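import Pool.Agent.Q160.SG.Stm

/-!
# Project SG of helper160: the case of pairs
-/

set_option autoImplicit false

namespace Pool.Agent.Q65.SG

open Finset Pool.Agent.Q160.SG

theorem dropMax_pair {α : Type} [LinearOrder α] (x y : α) (h : x < y) :
    dropMax (insert y ({x} : Finset α)) = {x} := by
  ext z
  simp only [dropMax, mem_filter, mem_insert, mem_singleton, exists_eq_or_imp, exists_eq_left]
  constructor
  · rintro ⟨rfl | rfl, h2⟩
    · rcases h2 with h2 | h2
      · exact absurd h2 (lt_irrefl _)
      · exact absurd h2 (not_lt.2 h.le)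
    · rfl
  · rintro rfl
    exact ⟨Or.inr rfl, Or.inl h⟩

theorem dropMin_pair {α : Type} [LinearOrder α] (x y : α) (h : x < y) :
    dropMin (insert y ({x} : Finset α)) = {y} := by
  ext z
  simp only [dropMin, mem_filter, mem_insert, mem_singleton, exists_eq_or_imp, exists_eq_left]
  constructor
  · rintro ⟨rfl | rfl, h2⟩
    · rfl
    · rcases h2 with h2 | h2
      · exact absurd h2 (not_lt.2 h.le)
      · exact absurd h2 (lt_irrefl _)
  · rintro rfl
    exact ⟨Or.inl rfl, Or.inr h⟩

theorem two_F {α : Type} [LinearOrder α] (c : Finset α → ℤ) (W : Finset α) :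
    2 * F 0 c W = (∑ x ∈ W, c {x}) ^ 2 - ∑ x ∈ W, c {x} ^ 2 := by
  induction W using Finset.induction_on_max with
  | empty =>
    unfold F
    rw [powersetCard_eq_empty.2 (by simp)]
    simp
  | insert a W ha ih =>
    have haW : a ∉ W := fun h => lt_irrefl _ (ha a h)
    have h1 : F 0 c (insert a W) = F 0 c W + (∑ x ∈ W, c {x}) * c {a} := by
      unfold F
      rw [powersetCard_succ_insert haW, sum_union, sum_image, powersetCard_one, sum_map, sum_mul]
      · congr 1
        refine sum_congr rfl fun x hx => ?_
        have hxa := ha x hx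
        show c (dropMax (insert a {x})) * c (dropMin (insert a {x})) = _
        rw [dropMax_pair x a hxa, dropMin_pair x a hxa]
      · intro s hs t ht hst
        rw [mem_coe, mem_powersetCard] at hs ht
        have h2 : a ∉ s := fun h => haW (hs.1 h)
        have h3 : a ∉ t := fun h => haW (ht.1 h)
        rw [← erase_insert h2, ← erase_insert h3, hst]
      · rw [disjoint_left]
        intro s hs hs2
        rw [mem_powersetCard] at hs
        obtain ⟨t, _, rfl⟩ := mem_image.1 hs2
        exact haW (hs.1 (mem_insert_self _ _))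
    rw [h1, sum_insert haW, sum_insert haW, mul_add, ih]
    ring

theorem t_BASE : J_BASE := by
  intro α _ W c hc
  have h1 := two_F c W
  have h2 : ∑ x ∈ W, c {x} ^ 2 ≤ W.card := by
    have h3 : ∀ x ∈ W, c {x} ^ 2 ≤ 1 := fun x _ => by
      rw [← sq_abs]
      exact pow_le_one₀ (abs_nonneg _) (hc _)
    refine (sum_le_sum h3).trans (le_of_eq ?_)
    simp
  have h4 : 0 ≤ (∑ x ∈ W, c {x}) ^ 2 := sq_nonneg _
  omega

end Pool.Agent.Q65.SG

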